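import Pool.Agent.H80.TK.Pre

/-!
# TAN: only finitely many points off `R` have torsion in both directions
-/

set_option autoImplicit false

open Pool.Agent.Y720.MZ MvPolynomial Height AdmissibleAbsValues Pool.Agent.Q35.TT

namespace Pool.Agent.H80.TK

open Pool.Agent.H66.TK

section scal

variable {K : Type} [CommRing K] (a : Fin 3 → Fin 3 → K) (b : Fin 4 → Fin 4 → K) (w l m : K)
  (x y : Fin 2 → K)

theorem sFF : FF a b (l * m * w) (fun i => l * x i) (fun i => m * y i) =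
    (l * m) ^ 3 * FF a b w x y := by
  simp only [FF, cub, q2, q3, ax, bx]
  ring

theorem sFw : Fw a (l * m * w) (fun i => l * x i) (fun i => m * y i) =
    (l * m) ^ 2 * Fw a w x y := by
  simp only [Fw, cw, q2, ax]
  ring

theorem sc0 : c0 (ax a (fun i => m * y i)) (bx b (fun i => m * y i)) (l * m * w)
    (fun i => l * x i) = l ^ 2 * m ^ 3 * c0 (ax a y) (bx b y) w x := by
  simp only [c0, q2, q3, ax, bx]
  ring

theorem sc1 : c1 (ax a (fun i => m * y i)) (bx b (fun i => m * y i)) (l * m * w)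
    (fun i => l * x i) = l ^ 2 * m ^ 3 * c1 (ax a y) (bx b y) w x := by
  simp only [c1, q2, q3, ax, bx]
  ring

end scal

/-- the normalisation of `(1, t)` -/
theorem norm_ex {K : Type} [Field K] (v : AbsoluteValue K ℝ) (t : K) :
    ∃ l : K, v l = (max 1 (v t))⁻¹ ∧ Nm v (fun i => l * (![1, t] : Fin 2 → K) i) := by
  rcases le_total (v t) 1 with h | h
  · refine ⟨1, ?_, ?_, 0, ?_⟩
    · rw [max_eq_left h, map_one, inv_one]
    · intro i
      fin_cases i
      · simp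
      · simpa using h
    · simp
  · have ht : t ≠ 0 := by
      rintro rfl
      rw [map_zero] at h
      linarith
    have hvt : v t ≠ 0 := v.ne_zero_iff.2 ht
    refine ⟨t⁻¹, ?_, ?_, 1, ?_⟩
    · rw [max_eq_right h, map_inv₀]
    · intro i
      fin_cases i
      · simp only [Fin.zero_eta, Matrix.cons_val_zero, mul_one, map_inv₀]
        exact inv_le_one_of_one_le₀ h
      · simp [ht]
    · simp [ht]

/-- the local inequality -/
theorem tan_loc {f p q T R C A B N₁ N₂ d e : ℝ} (hf : 0 ≤ f) (hp : 0 ≤ p) (hq : 0 ≤ q)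
    (hT : 1 ≤ T) (hR : 1 ≤ R) (hC : 0 ≤ C)
    (h : 1 ≤ C * max (f / (T ^ 2 * R ^ 2)) (max (p / (T ^ 2 * R ^ 3)) (q / (T ^ 3 * R ^ 2))))
    (hx : max (f * R) p ^ 3 ≤ A * N₁ * d * T ^ 4 * R ^ 2)
    (hy : max (f * T) q ^ 3 ≤ B * N₂ * e * R ^ 4 * T ^ 2) :
    f ^ 3 * T ^ 3 * R ^ 3 ≤ C ^ 3 * (A * B) * (N₁ * N₂) * (d * e) := by
  have hT0 : 0 < T := lt_of_lt_of_le one_pos hT
  have hR0 : 0 < R := lt_of_lt_of_le one_pos hR
  obtain ⟨G, hG⟩ : ∃ G : ℝ, G = max (f * R) p := ⟨_, rfl⟩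
  obtain ⟨G', hG'⟩ : ∃ G' : ℝ, G' = max (f * T) q := ⟨_, rfl⟩
  rw [← hG] at hx
  rw [← hG'] at hy
  have g1 : f * R ≤ G := by rw [hG]; exact le_max_left _ _
  have g2 : p ≤ G := by rw [hG]; exact le_max_right _ _
  have g3 : f * T ≤ G' := by rw [hG']; exact le_max_left _ _
  have g4 : q ≤ G' := by rw [hG']; exact le_max_right _ _
  have g0 : 0 ≤ G := hp.trans g2
  have g0' : 0 ≤ G' := hq.trans g4
  have key : f * (T ^ 3 * R ^ 3) ≤ C * (G * G') := by
    rcases max_choice (f / (T ^ 2 * R ^ 2)) (max (p / (T ^ 2 * R ^ 3)) (q / (T ^ 3 * R ^ 2)))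
      with hm | hm
    · rw [hm, mul_div_assoc', le_div_iff₀ (by positivity), one_mul] at h
      calc f * (T ^ 3 * R ^ 3) = (f * T * R) * (T ^ 2 * R ^ 2) := by ring
        _ ≤ (f * T * R) * (C * f) := mul_le_mul_of_nonneg_left h (by positivity)
        _ = C * ((f * R) * (f * T)) := by ring
        _ ≤ C * (G * G') := mul_le_mul_of_nonneg_left
            (mul_le_mul g1 g3 (by positivity) g0) hC
    · rw [hm] at h
      rcases max_choice (p / (T ^ 2 * R ^ 3)) (q / (T ^ 3 * R ^ 2)) with hm | hm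
      · rw [hm, mul_div_assoc', le_div_iff₀ (by positivity), one_mul] at h
        calc f * (T ^ 3 * R ^ 3) = (f * T) * (T ^ 2 * R ^ 3) := by ring
          _ ≤ (f * T) * (C * p) := mul_le_mul_of_nonneg_left h (by positivity)
          _ = C * (p * (f * T)) := by ring
          _ ≤ C * (G * G') := mul_le_mul_of_nonneg_left
              (mul_le_mul g2 g3 (by positivity) g0) hC
      · rw [hm, mul_div_assoc', le_div_iff₀ (by positivity), one_mul] at h
        calc f * (T ^ 3 * R ^ 3) = (f * R) * (T ^ 3 * R ^ 2) := by ring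
          _ ≤ (f * R) * (C * q) := mul_le_mul_of_nonneg_left h (by positivity)
          _ = C * ((f * R) * q) := by ring
          _ ≤ C * (G * G') := mul_le_mul_of_nonneg_left
              (mul_le_mul g1 g4 hq g0) hC
  have h3 := pow_le_pow_left₀ (by positivity) key 3
  have h4 : G ^ 3 * G' ^ 3 ≤ (A * N₁ * d * T ^ 4 * R ^ 2) * (B * N₂ * e * R ^ 4 * T ^ 2) :=
    mul_le_mul hx hy (by positivity) ((by positivity : (0 : ℝ) ≤ G ^ 3).trans hx)
  have h5 : (f ^ 3 * T ^ 3 * R ^ 3) * (T ^ 6 * R ^ 6) ≤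
      (C ^ 3 * (A * B) * (N₁ * N₂) * (d * e)) * (T ^ 6 * R ^ 6) := by
    calc (f ^ 3 * T ^ 3 * R ^ 3) * (T ^ 6 * R ^ 6) = (f * (T ^ 3 * R ^ 3)) ^ 3 := by ring
      _ ≤ (C * (G * G')) ^ 3 := h3
      _ = C ^ 3 * (G ^ 3 * G' ^ 3) := by ring
      _ ≤ C ^ 3 * ((A * N₁ * d * T ^ 4 * R ^ 2) * (B * N₂ * e * R ^ 4 * T ^ 2)) :=
          mul_le_mul_of_nonneg_left h4 (by positivity)
      _ = _ := by ring
  exact le_of_mul_le_mul_right h5 (by positivity)

theorem tan (h1 : H66.TK.S_STR) (h2 : H66.TK.S_ORD) (h3 : H66.TK.S_SMO) (h4 : H66.TK.S_PRD) :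
    H66.TK.S_TAN := by
  intro K _ _ a b hab
  obtain ⟨A, hA, hstr⟩ := h1 K a b hab.line₁
  obtain ⟨A', hA', hstr'⟩ := h1 K (tr a) (tr b) hab.line₂
  obtain ⟨E, hE0, hord⟩ := h2 K a b (4 * totalWeight K)
  obtain ⟨E', hE0', hord'⟩ := h2 K (tr a) (tr b) (4 * totalWeight K)
  obtain ⟨S, hS, hsmo⟩ := h3 K a b hab.smooth
  obtain ⟨D, hD0, hprd⟩ := h4 K (fun v => S v ^ 3 * (A v * A' v)) (cst_mul (cst_pow hS 3)
    (cst_mul hA hA'))
  have hfin := NumberField.finite_setOfPred_mulHeight₁_le (K := K) (D ^ 2 * (E * E'))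
  refine ((hfin.prod hfin).biUnion fun z _ => ((fin_FF a b ![1, z.1] ![1, z.2]).prod
    (Set.finite_singleton z))).subset ?_
  rintro ⟨w, t, r⟩ ⟨hF, hFw, ⟨n0, hn0, hTF0⟩, ⟨n0', hn0', hTF0'⟩⟩
  simp only at hF hFw hTF0 hTF0'
  have hF' : FF (tr a) (tr b) w ![1, r] ![1, t] = 0 := by rw [FF_tr]; exact hF
  have hFw' : Fw (tr a) w ![1, r] ![1, t] ≠ 0 := by rw [Fw_tr]; exact hFw
  obtain ⟨n, hn, hTF, hnb⟩ := hord w t r n0 hn0 hF hFw hTF0
  obtain ⟨n', hn', hTF', hnb'⟩ := hord' w r t n0' hn0' hF' hFw' hTF0'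
  obtain ⟨δ, hδ, harch, hnon⟩ := hstr w t r n hn hF hFw hTF
  obtain ⟨δ', hδ', harch', hnon'⟩ := hstr' w r t n' hn' hF' hFw' hTF'
  obtain ⟨m, hm⟩ : ∃ m : ℝ, m = n := ⟨_, rfl⟩
  obtain ⟨m', hm'⟩ : ∃ m' : ℝ, m' = n' := ⟨_, rfl⟩
  have hm1 : 1 ≤ m := by
    rw [hm]
    exact_mod_cast Nat.one_le_iff_ne_zero.2 hn
  have hm1' : 1 ≤ m' := by
    rw [hm']
    exact_mod_cast Nat.one_le_iff_ne_zero.2 hn'
  -- the inequality at a place
  have hloc : ∀ v : AbsoluteValue K ℝ, (v ∈ archAbsVal (K := K) ∨ v ∈ nonarchAbsVal (K := K)) →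
      ∀ N₁ N₂ : ℝ,
      Gm v a b w t r ^ 3 ≤ A v * N₁ * v δ * max 1 (v t) ^ 4 * max 1 (v r) ^ 2 →
      Gm v (tr a) (tr b) w r t ^ 3 ≤ A' v * N₂ * v δ' * max 1 (v r) ^ 4 * max 1 (v t) ^ 2 →
      v (Fw a w ![1, t] ![1, r] ^ 3) * max 1 (v t) ^ 3 * max 1 (v r) ^ 3 ≤
        S v ^ 3 * (A v * A' v) * (N₁ * N₂) * v (δ * δ') := by
    intro v hv N₁ N₂ hx hy
    obtain ⟨l, hl, hlN⟩ := norm_ex v t
    obtain ⟨m, hm, hmN⟩ := norm_ex v r
    have hT : 1 ≤ max 1 (v t) := le_max_left _ _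
    have hR : 1 ≤ max 1 (v r) := le_max_left _ _
    have hT0 : 0 < max 1 (v t) := lt_of_lt_of_le one_pos hT
    have hR0 : 0 < max 1 (v r) := lt_of_lt_of_le one_pos hR
    rw [map_pow, map_mul]
    unfold Gm at hx hy
    rw [Fw_tr a w ![1, t] ![1, r]] at hy
    refine tan_loc (v.nonneg _) ((v.nonneg _).trans (le_max_left _ _))
      ((v.nonneg _).trans (le_max_left _ _)) hT hR (zero_le_one.trans (hS.one_le v)) ?_ hx hy
    refine hsmo v hv (l * m * w) _ _ _ hlN hmN ?_ ?_ ?_ ?_ ?_ ?_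
    · rw [sFF, hF, mul_zero]
    · refine le_trans (le_of_eq ?_) (le_max_left _ _)
      rw [sFw, map_mul, map_pow, map_mul, hl, hm]
      field_simp
    · refine le_trans ?_ ((le_max_left _ _).trans (le_max_right _ _))
      rw [sc0, map_mul, map_mul, map_pow, map_pow, hl, hm, le_div_iff₀ (by positivity)]
      refine le_trans (le_of_eq ?_) (le_max_left _ _)
      field_simp
    · refine le_trans ?_ ((le_max_left _ _).trans (le_max_right _ _))
      rw [sc1, map_mul, map_mul, map_pow, map_pow, hl, hm, le_div_iff₀ (by positivity)]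
      refine le_trans (le_of_eq ?_) (le_max_right _ _)
      field_simp
    · refine le_trans ?_ ((le_max_right _ _).trans (le_max_right _ _))
      rw [mul_comm l m, sc0, map_mul, map_mul, map_pow, map_pow, hl, hm,
        le_div_iff₀ (by positivity)]
      refine le_trans (le_of_eq ?_) (le_max_left _ _)
      field_simp
    · refine le_trans ?_ ((le_max_right _ _).trans (le_max_right _ _))
      rw [mul_comm l m, sc1, map_mul, map_mul, map_pow, map_pow, hl, hm,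
        le_div_iff₀ (by positivity)]
      refine le_trans (le_of_eq ?_) (le_max_right _ _)
      field_simp
  have hkey := hprd (Fw a w ![1, t] ![1, r] ^ 3) (δ * δ') t r 3 3 (m ^ 2 * m' ^ 2)
    (pow_ne_zero 3 hFw) (mul_ne_zero hδ hδ')
    (one_le_mul_of_one_le_of_one_le (one_le_pow₀ hm1) (one_le_pow₀ hm1')) (by
      intro v hv
      have h5 := harch v hv
      have h6 := harch' v hv
      rw [← hm] at h5
      rw [← hm'] at h6
      exact hloc v (Or.inl hv) _ _ h5 h6) (by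
      intro v hv
      have h7 := hloc v (Or.inr hv) 1 1 (by rw [mul_one]; exact hnon v hv)
        (by rw [mul_one]; exact hnon' v hv)
      rw [mul_one, mul_one] at h7
      exact h7)
  obtain ⟨H, hH⟩ : ∃ H : ℝ, H = mulHeight₁ t * mulHeight₁ r := ⟨_, rfl⟩
  have ht1 : 1 ≤ mulHeight₁ t := one_le_mulHeight₁ t
  have hr1 : 1 ≤ mulHeight₁ r := one_le_mulHeight₁ r
  have hH1 : 1 ≤ H := by
    rw [hH]
    exact one_le_mul_of_one_le_of_one_le ht1 hr1
  obtain ⟨Q, hQ⟩ : ∃ Q : ℝ, Q = (m ^ 2 * m' ^ 2) ^ totalWeight K := ⟨_, rfl⟩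
  have hQ0 : 0 ≤ Q := by
    rw [hQ]
    positivity
  rw [← mul_pow, ← hH, ← hQ] at hkey
  have h7 : Q ^ 2 ≤ (E * H) * (E' * H) := by
    have h8 : Q ^ 2 = (n : ℝ) ^ (4 * totalWeight K) * (n' : ℝ) ^ (4 * totalWeight K) := by
      rw [hQ, hm, hm', ← mul_pow, ← mul_pow, ← pow_mul, ← pow_mul]
      congr 1
      ring
    rw [h8, hH]
    refine mul_le_mul hnb ?_ (by positivity) (by positivity)
    rw [mul_comm (mulHeight₁ t)]
    exact hnb'
  have h9 : H ^ 4 * H ^ 2 ≤ (D ^ 2 * (E * E')) * H ^ 2 := by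
    calc H ^ 4 * H ^ 2 = H ^ 3 * H ^ 3 := by ring
      _ ≤ (D * Q) * (D * Q) := mul_le_mul hkey hkey (by positivity) (by positivity)
      _ = D ^ 2 * Q ^ 2 := by ring
      _ ≤ D ^ 2 * ((E * H) * (E' * H)) := mul_le_mul_of_nonneg_left h7 (sq_nonneg _)
      _ = _ := by ring
  have h10 : H ^ 4 ≤ D ^ 2 * (E * E') := le_of_mul_le_mul_right h9 (by positivity)
  have h11 : H ≤ D ^ 2 * (E * E') := by
    refine le_trans ?_ h10
    calc H = H ^ 1 := (pow_one H).symm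
      _ ≤ H ^ 4 := pow_le_pow_right₀ hH1 (by norm_num)
  have h12 : mulHeight₁ t ≤ D ^ 2 * (E * E') := by
    refine le_trans ?_ h11
    rw [hH]
    exact le_mul_of_one_le_right (zero_le_one.trans ht1) hr1
  have h13 : mulHeight₁ r ≤ D ^ 2 * (E * E') := by
    refine le_trans ?_ h11
    rw [hH]
    exact le_mul_of_one_le_left (zero_le_one.trans hr1) ht1
  simp only [Set.mem_iUnion]
  exact ⟨(t, r), ⟨h12, h13⟩, ⟨hF, rfl⟩⟩

end Pool.Agent.H80.TK
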