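import Pool.Agent.H80.TK.Pre

/-!
# TBN: torsion in the direction `y` on a plane cubic in the direction `x`
-/

set_option autoImplicit false

open Pool.Agent.Y720.MZ MvPolynomial Height AdmissibleAbsValues Pool.Agent.Q35.TT

namespace Pool.Agent.H80.TK

open Pool.Agent.H66.TK

/-- the local inequality -/
theorem tbn_loc {f T R C c d : ℝ} (_hf : 0 ≤ f) (hT : 1 ≤ T) (_hd : 0 ≤ d)
    (h : (f * T) ^ 3 ≤ C * c * d * R ^ 4 * T ^ 2) :
    f ^ 3 * T ^ 1 * R ^ 0 ≤ C * R ^ 4 * c * d := by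
  have hT0 : 0 < T := lt_of_lt_of_le one_pos hT
  have h1 : (f ^ 3 * T) * T ^ 2 ≤ (C * R ^ 4 * c * d) * T ^ 2 := by
    calc (f ^ 3 * T) * T ^ 2 = (f * T) ^ 3 := by ring
      _ ≤ C * c * d * R ^ 4 * T ^ 2 := h
      _ = (C * R ^ 4 * c * d) * T ^ 2 := by ring
  have h2 := le_of_mul_le_mul_right h1 (by positivity)
  rw [pow_one, pow_zero, mul_one]
  exact h2

theorem tbn (h1 : H66.TK.S_STR) (h2 : H66.TK.S_ORD) (h4 : H66.TK.S_PRD) : H66.TK.S_TBN := by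
  intro K _ _ a b hab r
  obtain ⟨C, hC, hstr⟩ := h1 K (tr a) (tr b) hab
  obtain ⟨E, hE0, hord⟩ := h2 K (tr a) (tr b) (4 * totalWeight K)
  obtain ⟨D, hD0, hprd⟩ := h4 K (fun v => C v * max 1 (v r) ^ 4) (cst_mul hC (cst_pow (cst_max r) 4))
  have hfin := NumberField.finite_setOfPred_mulHeight₁_le (K := K) (D ^ 2 * (E * mulHeight₁ r))
  refine (hfin.biUnion fun t _ => ((fin_FF a b ![1, t] ![1, r]).prod
    (Set.finite_singleton t))).subset ?_
  rintro ⟨w, t⟩ ⟨hF, hFw, n0, hn0, hTF0⟩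
  simp only at hF hFw hTF0
  have hF' : FF (tr a) (tr b) w ![1, r] ![1, t] = 0 := by rw [FF_tr]; exact hF
  have hFw' : Fw (tr a) w ![1, r] ![1, t] ≠ 0 := by rw [Fw_tr]; exact hFw
  obtain ⟨n, hn, hTF, hnb⟩ := hord w r t n0 hn0 hF' hFw' hTF0
  obtain ⟨δ, hδ, harch, hnon⟩ := hstr w r t n hn hF' hFw' hTF
  obtain ⟨m, hm⟩ : ∃ m : ℝ, m = n := ⟨_, rfl⟩
  have hm1 : 1 ≤ m := by
    rw [hm]
    exact_mod_cast Nat.one_le_iff_ne_zero.2 hn
  have hG : ∀ v : AbsoluteValue K ℝ, (v (Fw a w ![1, t] ![1, r]) * max 1 (v t)) ^ 3 ≤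
      Gm v (tr a) (tr b) w r t ^ 3 := by
    intro v
    refine pow_le_pow_left₀ (mul_nonneg (v.nonneg _) (le_trans zero_le_one (le_max_left _ _))) ?_ 3
    rw [← Fw_tr a w ![1, t] ![1, r]]
    exact le_max_left _ _
  have hkey := hprd (Fw a w ![1, t] ![1, r] ^ 3) δ t r 1 0 (m ^ 2) (pow_ne_zero 3 hFw) hδ
    (one_le_pow₀ hm1) (by
      intro v hv
      rw [map_pow]
      have h5 := (hG v).trans (harch v hv)
      rw [← hm] at h5
      exact tbn_loc (v.nonneg _) (le_max_left _ _) (v.nonneg _) h5) (by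
      intro v hv
      rw [map_pow]
      have h5 := (hG v).trans (hnon v hv)
      have h6 := tbn_loc (c := 1) (v.nonneg _) (le_max_left _ _) (v.nonneg _)
        (by rw [mul_one]; exact h5)
      rw [mul_one] at h6
      exact h6)
  obtain ⟨H, hH⟩ : ∃ H : ℝ, H = mulHeight₁ t := ⟨_, rfl⟩
  have hH1 : 1 ≤ H := by
    rw [hH]
    exact one_le_mulHeight₁ t
  obtain ⟨Q, hQ⟩ : ∃ Q : ℝ, Q = (m ^ 2) ^ totalWeight K := ⟨_, rfl⟩
  have hQ0 : 0 ≤ Q := by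
    rw [hQ]
    positivity
  rw [pow_one, pow_zero, mul_one, ← hH, ← hQ] at hkey
  have h7 : Q ^ 2 ≤ E * (mulHeight₁ r * H) := by
    have h8 : Q ^ 2 = (n : ℝ) ^ (4 * totalWeight K) := by
      rw [hQ, hm, ← pow_mul, ← pow_mul]
      congr 1
      ring
    rw [h8, hH]
    exact hnb
  have h9 : H * H ≤ (D ^ 2 * (E * mulHeight₁ r)) * H := by
    calc H * H ≤ (D * Q) * (D * Q) :=
          mul_le_mul hkey hkey (by linarith) (by positivity)
      _ = D ^ 2 * Q ^ 2 := by ring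
      _ ≤ D ^ 2 * (E * (mulHeight₁ r * H)) := mul_le_mul_of_nonneg_left h7 (sq_nonneg _)
      _ = _ := by ring
  have h10 : H ≤ D ^ 2 * (E * mulHeight₁ r) := le_of_mul_le_mul_right h9 (by linarith)
  simp only [Set.mem_iUnion]
  refine ⟨t, ?_, ?_⟩
  · show mulHeight₁ t ≤ _
    rw [← hH]
    exact h10
  · exact ⟨hF, rfl⟩

end Pool.Agent.H80.TK
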