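import Pool.Agent.H66.TK.Stm

/-!
# Auxiliary facts for the parts TBN and TAN
-/

set_option autoImplicit false

open Pool.Agent.Y720.MZ MvPolynomial Height AdmissibleAbsValues Pool.Agent.Q35.TT

namespace Pool.Agent.H80.TK

open Pool.Agent.H66.TK

theorem cst_max {K : Type} [Field K] [NumberField K] (r : K) :
    Cst (fun v : AbsoluteValue K ℝ => max 1 (v r)) := by
  refine ⟨fun v => le_max_left _ _, ?_⟩
  rcases eq_or_ne r 0 with rfl | hr
  · refine Set.Finite.subset Set.finite_empty ?_
    rintro v ⟨_, hv⟩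
    exact (hv (by simp)).elim
  · have h : (Function.mulSupport (fun v : nonarchAbsVal (K := K) ↦ v.val r)).Finite :=
      hasFiniteMulSupport hr
    refine (h.image Subtype.val).subset ?_
    rintro v ⟨hv, hv1⟩
    refine ⟨⟨v, hv⟩, ?_, rfl⟩
    rw [Function.mem_mulSupport]
    intro h1
    apply hv1
    show max 1 (v r) = 1
    have h1' : v r = 1 := h1
    rw [h1', max_self]

theorem cst_mul {K : Type} [Field K] [NumberField K] {C D : AbsoluteValue K ℝ → ℝ}
    (hC : Cst C) (hD : Cst D) : Cst (fun v => C v * D v) := by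
  refine ⟨fun v => one_le_mul_of_one_le_of_one_le (hC.one_le v) (hD.one_le v), ?_⟩
  refine (hC.fin.union hD.fin).subset ?_
  rintro v ⟨hv, hv1⟩
  by_cases h : C v = 1
  · refine Or.inr ⟨hv, fun h2 => hv1 ?_⟩
    show C v * D v = 1
    rw [h, h2, one_mul]
  · exact Or.inl ⟨hv, h⟩

theorem cst_pow {K : Type} [Field K] [NumberField K] {C : AbsoluteValue K ℝ → ℝ}
    (hC : Cst C) (n : ℕ) : Cst (fun v => C v ^ n) := by
  refine ⟨fun v => one_le_pow₀ (hC.one_le v), ?_⟩
  refine hC.fin.subset ?_
  rintro v ⟨hv, hv1⟩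
  refine ⟨hv, fun h => hv1 ?_⟩
  show C v ^ n = 1
  rw [h, one_pow]

theorem fin_cub {K : Type} [Field K] (p q : K) : {w : K | w ^ 3 + p * w + q = 0}.Finite := by
  classical
  let P : Polynomial K := Polynomial.X ^ 3 + Polynomial.C p * Polynomial.X + Polynomial.C q
  have hP : P ≠ 0 := by
    intro h0
    have h1 : P.coeff 3 = 1 := by
      simp only [P, Polynomial.coeff_add, Polynomial.coeff_X_pow, Polynomial.coeff_C_mul,
        Polynomial.coeff_X, Polynomial.coeff_C]
      norm_num
    rw [h0] at h1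
    simp at h1
  refine (P.roots.toFinset.finite_toSet).subset ?_
  intro w hw
  have hw' : w ^ 3 + p * w + q = 0 := hw
  simp only [Finset.mem_coe, Multiset.mem_toFinset, Polynomial.mem_roots hP, Polynomial.IsRoot.def]
  simp only [P, Polynomial.eval_add, Polynomial.eval_pow, Polynomial.eval_X, Polynomial.eval_mul,
    Polynomial.eval_C]
  exact hw'

theorem fin_FF {K : Type} [Field K] (a : Fin 3 → Fin 3 → K) (b : Fin 4 → Fin 4 → K)
    (x y : Fin 2 → K) : {w : K | FF a b w x y = 0}.Finite :=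
  fin_cub (q2 (ax a y) x) (q3 (bx b y) x)

end Pool.Agent.H80.TK
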